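import Pool.Agent.Lib.MP_cb4cf2_lc.AEMain

namespace Pool.Agent.Results.MP_cb4cf2_lc.AlmostEverywhereOracle

open Pool.Agent.Lib.MP_cb4cf2_lc

/-- Relative to some oracle, a language in AM differs at almost all input lengths from every
second level predicate of linear exponential time with `n / 8` bits of advice. -/
theorem result : ∃ A : List Bool → Bool, ∃ L ∈ AM A, L ∉ ioSigma2E A := AE.main

end Pool.Agent.Results.MP_cb4cf2_lc.AlmostEverywhereOracle
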