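import Pool.Agent.Lib.MP_cb4cf2_lc.Main

namespace Pool.Agent.Results.MP_cb4cf2_lc.GenericOracle

open Pool.Agent.Lib.MP_cb4cf2_lc

/-- One polynomial time oracle verifier is an Arthur-Merlin protocol for every oracle, and its
language is outside the second level of the hierarchy for a residual set of oracles. -/
theorem result : ∃ (V : OM) (p : Polynomial ℕ) (L : (List Bool → Bool) → Set (List Bool)),
    (∀ A, AMvia V p A (L A)) ∧ ∀ᶠ A in residual (List Bool → Bool), L A ∉ Sigma2 A := by
  obtain ⟨V, p, h⟩ := exists_AM
  exact ⟨V, p, Lang, h, generic⟩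

end Pool.Agent.Results.MP_cb4cf2_lc.GenericOracle
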